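import Pool.Agent.X258.FAN.Wedge

/-! # The wedge of the two `{0,1/3,2/3}`-EPG fans is not endpoint-homogeneous -/

set_option autoImplicit false

namespace Pool.Agent.X258.FAN

open Set Topology Filter Pool.Agent.H545R3.Fan

/-- the two fans -/
noncomputable def PP (b : Bool) : Set (Cs × ℝ) := if b then KK psi2 else KK psi1

lemma goodP (b : Bool) : Good (PP b) := by
  cases b
  · exact good wt1
  · exact good wt2

lemma epgP (b : Bool) : IsEPG (top (goodP b)) Z3 := by
  cases b
  · exact isEPG wt1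
  · exact isEPG wt2

lemma epgW : IsEPG (top (goodW goodP)) Z3 := wedge_EPG goodP (Or.inl rfl) epgP

/-- the endpoints of the wedge -/
def EW : Set (Fan (WK PP)) := {e | IsEndpoint e}

/-- a point of the second derived set of the endpoints, on the blades of the first fan: only the
top -/
lemma first_part {y : Fan (PP false)} (hy : io PP false y ∈ Dv (Dv EW)) :
    y = top (goodP false) := by
  by_contra hne
  have h1 : y ∈ Dv (Dv (EE psi1)) := by
    refine Dv_pull goodP (A := Dv EW) ?_ hne hy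
    intro z hz hzD
    exact Dv_pull goodP (A := EW) (fun w _ hw => (io_endpoint goodP w).1 hw) hz hzD
  exact hne (DD1 h1)

lemma s0 : Sup z0 0 := fun _ _ => rfl

lemma v0 : (st z0 0).1 < (st z0 0).2.1 ∧ (st z0 0).2.1 < (st z0 0).2.2 ∧
    (st z0 0).2.2 < 0 + 3 := st_valid z0 0

/-- the distinguished endpoint of the second fan -/
noncomputable def e2 : Fan (PP true) := pt z0 (psi2 (st z0 0)) (tip_mem wt2 s0)
/-- the distinguished endpoint of the first fan -/
noncomputable def e1 : Fan (PP false) := pt z0 (psi1 (st z0 0)) (tip_mem wt1 s0)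
/-- the distinguished point of the second derived set -/
noncomputable def x2 : Fan (PP true) := pt z0 (mA (st z0 0)) (ma_mem wt2 s0)

lemma e2_end : IsEndpoint e2 := (endpoint_iff' wt2 _).2 ⟨z0, 0, s0, rfl⟩
lemma e1_end : IsEndpoint e1 := (endpoint_iff' wt1 _).2 ⟨z0, 0, s0, rfl⟩

lemma x2_mem : io PP true x2 ∈ Dv (Dv EW) := by
  refine Dv_push (A' := Dv (EE psi2)) ?_ (DD2 s0)
  intro z hz
  exact Dv_push (A' := EE psi2) (fun w hw => (io_endpoint goodP w).2 hw) hz

lemma x2_ne : io PP true x2 ≠ top (goodW goodP) := by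
  rw [← io_top goodP true]
  intro h
  have := io_inj true h
  exact pt_ne_top (good wt2) (ne_of_gt (wt2.ma_pos _ _ _ v0.1 v0.2.1)) this

theorem not_hom : ¬ ∃ h : Fan (WK PP) ≃ₜ Fan (WK PP), h (io PP true e2) = io PP false e1 := by
  rintro ⟨h, hh⟩
  have hfan := isFan (goodW goodP)
  have htop : h (top (goodW goodP)) = top (goodW goodP) :=
    (hfan.ramification _).1 (ramification_image h ((hfan.ramification _).2 rfl))
  -- the blade of the second endpoint
  have hpos2 : 0 < psi2 (st z0 0) := wt2.pos _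
  have harc : IsArc (Subtype.val ⁻¹' ((fun u => pr (z0, u)) '' Icc 0 (psi2 (st z0 0))) :
      Set (Fan (PP true))) (top (goodP true)) e2 := blade_isArc (good wt2) hpos2 (tip_mem wt2 s0)
  have harcW : IsArc (io PP true '' (Subtype.val ⁻¹' ((fun u => pr (z0, u)) ''
      Icc 0 (psi2 (st z0 0))))) (top (goodW goodP)) (io PP true e2) := by
    obtain ⟨f, hf, hfi, hf0, hf1, hfr⟩ := harc
    exact ⟨io PP true ∘ f, (io_cont true).comp hf, (io_inj true).comp hfi,
      by rw [Function.comp_apply, hf0, io_top], by rw [Function.comp_apply, hf1],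
      by rw [range_comp, hfr]⟩
  have harcW' := isArc_image h harcW
  rw [htop, hh] at harcW'
  obtain ⟨B', hB', hBB'⟩ := io_blade goodP e1_end harcW'
  have hx2B : io PP true x2 ∈ (io PP true '' (Subtype.val ⁻¹' ((fun u => pr (z0, u)) ''
      Icc 0 (psi2 (st z0 0))) : Set (Fan (PP true)))) := by
    refine ⟨x2, ⟨mA (st z0 0), ⟨(wt2.ma_pos _ _ _ v0.1 v0.2.1).le, ?_⟩, rfl⟩, rfl⟩
    exact ((wt2.ma_lt _ _ _ v0.1 v0.2.1).trans (wt2.mb_lt _ _ _ v0.1 v0.2.1)).le
  have hhx : h (io PP true x2) ∈ io PP false '' B' := by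
    rw [← hBB']
    exact ⟨_, hx2B, rfl⟩
  obtain ⟨y, hyB, hy⟩ := hhx
  have hE : ∀ x, h x ∈ EW ↔ x ∈ EW := fun x => endpoint_homeo h x
  have hDD := Dv_homeo h (Dv_homeo h hE)
  have hyD : io PP false y ∈ Dv (Dv EW) := by
    rw [hy, hDD]
    exact x2_mem
  have hyt := first_part hyD
  rw [hyt, io_top, ← htop] at hy
  exact x2_ne (h.injective hy).symm

end Pool.Agent.X258.FAN
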