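import Pool.Agent.H545R3.FanFinal

/-! # The wedge of two fans at their tops -/

set_option autoImplicit false

namespace Pool.Agent.X258.FAN

open Set Topology Filter Pool.Agent.H545R3.Fan

/-- remove the first digit -/
def tl (c : Cs) : Cs := fun n => c (n + 1)

/-- put `b` in front of `c` -/
def cb (b : Bool) (c : Cs) : Cs := fun n => Nat.casesOn n b c

@[simp] lemma cb_zero (b : Bool) (c : Cs) : cb b c 0 = b := rfl
@[simp] lemma cb_succ (b : Bool) (c : Cs) (n : ℕ) : cb b c (n + 1) = c n := rfl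
@[simp] lemma tl_cb (b : Bool) (c : Cs) : tl (cb b c) = c := rfl
lemma cb_tl (c : Cs) : cb (c 0) (tl c) = c := by
  funext n
  cases n <;> rfl
lemma cb_tl' {c : Cs} {b : Bool} (h : c 0 = b) : cb b (tl c) = c := by
  rw [← h]; exact cb_tl c
lemma cb_inj {b : Bool} {c d : Cs} (h : cb b c = cb b d) : c = d := by
  have := congrArg tl h
  simpa using this

lemma cb_cont (b : Bool) : Continuous (cb b) := by
  apply continuous_pi
  intro n
  cases n with
  | zero => exact continuous_const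
  | succ n => exact continuous_apply n

/-- The subset of the cylinder over Cantor space that is `F b` over the sequences starting
with `b`. -/
def WK (F : Bool → Set (Cs × ℝ)) : Set (Cs × ℝ) := {q | (tl q.1, q.2) ∈ F (q.1 0)}

variable {F : Bool → Set (Cs × ℝ)}

lemma cb_mem {b : Bool} {c : Cs} {s : ℝ} : (cb b c, s) ∈ WK F ↔ (c, s) ∈ F b := Iff.rfl

lemma WK_eq : WK F = ⋃ b : Bool, (fun q : Cs × ℝ => (cb b q.1, q.2)) '' F b := by
  ext ⟨c, s⟩
  simp only [mem_iUnion, mem_image, Prod.mk.injEq, Prod.exists]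
  constructor
  · intro h
    exact ⟨c 0, tl c, s, h, cb_tl c, rfl⟩
  · rintro ⟨b, d, u, h, rfl, rfl⟩
    exact h

lemma goodW (hF : ∀ b, Good (F b)) : Good (WK F) where
  comp := by
    rw [WK_eq]
    apply isCompact_iUnion
    intro b
    apply (hF b).comp.image
    exact ((cb_cont b).comp continuous_fst).prodMk continuous_snd
  nonneg := fun q hq => (hF (q.1 0)).nonneg (tl q.1, q.2) hq
  down := fun c s s' h h0 hs => (hF (c 0)).down _ _ _ h h0 hs
  zero := fun c => (hF (c 0)).zero _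
  three := by
    obtain ⟨c₁, c₂, c₃, s₁, s₂, s₃, h12, h13, h23, hs₁, hs₂, hs₃, k₁, k₂, k₃⟩ := (hF false).three
    exact ⟨cb false c₁, cb false c₂, cb false c₃, s₁, s₂, s₃, fun h => h12 (cb_inj h),
      fun h => h13 (cb_inj h), fun h => h23 (cb_inj h), hs₁, hs₂, hs₃, k₁, k₂, k₃⟩

/-- the linear map of the plane sending the point over `c` to the point over `cb b c` -/
noncomputable def lin (b : Bool) (p : ℝ × ℝ) : ℝ × ℝ :=
  ((cond b 1 0) * p.2 + (1/3) * p.1, p.2)

lemma lin_cont (b : Bool) : Continuous (lin b) := by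
  unfold lin
  fun_prop

lemma lin_pr (b : Bool) (c : Cs) (s : ℝ) : lin b (pr (c, s)) = pr (cb b c, s) := by
  have h : xc (cb b c) = cond b 1 0 + (1/3) * xc c := by
    unfold xc
    rw [Cardinal.cantorFunction_succ _ (by norm_num) (by norm_num)]
    rfl
  unfold lin pr
  simp only [h]
  ext
  · simp only; ring
  · rfl

lemma lin_inj (b : Bool) : Function.Injective (lin b) := by
  rintro ⟨x, y⟩ ⟨x', y'⟩ h
  unfold lin at h
  simp only [Prod.mk.injEq] at h
  obtain ⟨h1, h2⟩ := h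
  subst h2
  ext
  · simp only; linarith
  · rfl

lemma lin_mem {b : Bool} {p : ℝ × ℝ} (hp : p ∈ Fan (F b)) : lin b p ∈ Fan (WK F) := by
  obtain ⟨⟨c, s⟩, hq, rfl⟩ := hp
  rw [lin_pr]
  exact ⟨(cb b c, s), hq, rfl⟩

/-- the inclusion of the fan over `F b` in the wedge -/
noncomputable def io (F : Bool → Set (Cs × ℝ)) (b : Bool) (x : Fan (F b)) : Fan (WK F) :=
  ⟨lin b x, lin_mem x.2⟩

lemma io_cont (b : Bool) : Continuous (io F b) :=
  ((lin_cont b).comp continuous_subtype_val).subtype_mk _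

lemma io_inj (b : Bool) : Function.Injective (io F b) := by
  intro x y h
  exact Subtype.ext (lin_inj b (congrArg Subtype.val h))

lemma io_pt {b : Bool} {c : Cs} {s : ℝ} (h : (c, s) ∈ F b) :
    io F b (pt c s h) = pt (cb b c) s (show (cb b c, s) ∈ WK F from h) := by
  apply Subtype.ext
  show lin b (pr (c, s)) = pr (cb b c, s)
  exact lin_pr b c s

lemma io_top (hF : ∀ b, Good (F b)) (b : Bool) : io F b (top (hF b)) = top (goodW hF) := by
  apply Subtype.ext
  show lin b (0 : ℝ × ℝ) = 0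
  simp [lin]

lemma io_emb (hF : ∀ b, Good (F b)) (b : Bool) : IsClosedEmbedding (io F b) := by
  have : CompactSpace (Fan (F b)) := isCompact_iff_compactSpace.1 (fan_compact (hF b))
  exact (io_cont b).isClosedEmbedding (io_inj b)

lemma io_surj (x : Fan (WK F)) : ∃ b y, io F b y = x := by
  obtain ⟨⟨c, s⟩, hq, hqx⟩ := x.2
  refine ⟨c 0, pt (tl c) s hq, ?_⟩
  apply Subtype.ext
  show lin (c 0) (pr (tl c, s)) = x
  rw [lin_pr, cb_tl, hqx]

lemma io_ne (hF : ∀ b, Good (F b)) {b b' : Bool} (hb : b ≠ b') {x : Fan (F b)} {y : Fan (F b')}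
    (h : io F b x = io F b' y) : x = top (hF b) := by
  obtain ⟨c, s, hc, hs, rfl⟩ := repr (hF b) x
  obtain ⟨d, u, hd, hu, rfl⟩ := repr (hF b') y
  rcases hs.eq_or_lt with h0 | h0
  · subst h0
    exact pt_zero _ _
  · exfalso
    rw [io_pt, io_pt] at h
    have := congrFun (pt_inj h0.ne' h).1 0
    exact hb this

lemma io_endpoint (hF : ∀ b, Good (F b)) {b : Bool} (x : Fan (F b)) :
    IsEndpoint (io F b x) ↔ IsEndpoint x := by
  rw [endpoint_iff (goodW hF), endpoint_iff (hF b)]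
  constructor
  · rintro ⟨c, s, h, hs, htip, hx⟩
    obtain ⟨d, u, hd, hu, rfl⟩ := repr (hF b) x
    rw [io_pt] at hx
    obtain ⟨h1, h2⟩ := pt_inj hs.ne' hx.symm
    subst h2
    subst h1
    exact ⟨d, s, hd, hs, fun v hv => htip v hv, rfl⟩
  · rintro ⟨c, s, h, hs, htip, rfl⟩
    exact ⟨cb b c, s, h, hs, fun v hv => htip v hv, io_pt h⟩

/-- blades of the wedge are images of blades -/
lemma io_blade (hF : ∀ b, Good (F b)) {b : Bool} {e : Fan (F b)} (he : IsEndpoint e)
    {B : Set (Fan (WK F))} (hB : IsArc B (top (goodW hF)) (io F b e)) :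
    ∃ B' : Set (Fan (F b)), IsArc B' (top (hF b)) e ∧ B = io F b '' B' := by
  obtain ⟨c, s, h, hs, htip, rfl⟩ := (endpoint_iff (hF b) e).1 he
  refine ⟨_, blade_isArc (hF b) hs h, ?_⟩
  rw [io_pt] at hB
  rw [arc_unique (goodW hF) hs _ hB]
  ext x
  constructor
  · rintro ⟨u, hu, hux⟩
    have hm : (c, u) ∈ F b := (hF b).down _ _ _ h hu.1 hu.2
    refine ⟨pt c u hm, ⟨u, hu, rfl⟩, ?_⟩
    rw [io_pt]
    exact Subtype.ext hux
  · rintro ⟨y, ⟨u, hu, huy⟩, rfl⟩
    refine ⟨u, hu, ?_⟩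
    show pr (cb b c, u) = lin b y
    rw [← huy]
    exact (lin_pr b c u).symm

theorem wedge_EPG (hF : ∀ b, Good (F b)) {Z : Set unitInterval} (h0 : (0 : unitInterval) ∈ Z)
    (hZ : ∀ b, IsEPG (top (hF b)) Z) : IsEPG (top (goodW hF)) Z := by
  intro B e he hB
  obtain ⟨b, e', rfl⟩ := io_surj e
  have he' := (io_endpoint hF e').1 he
  obtain ⟨B', hB', rfl⟩ := io_blade hF he' hB
  obtain ⟨φ, φ0, φ1, φZ⟩ := hZ b B' e' he' hB'
  have hemb : IsEmbedding (io F b) := (io_emb hF b).isEmbedding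
  refine ⟨φ.trans (hemb.homeomorphImage B'), ?_, ?_, ?_⟩
  · show io F b (φ 0) = _
    rw [φ0, io_top]
  · show io F b (φ 1) = _
    rw [φ1]
  · have h1 : (fun z => (((φ.trans (hemb.homeomorphImage B')) z : ↥(io F b '' B')) :
        Fan (WK F))) '' Z = io F b '' ((fun z => (φ z : Fan (F b))) '' Z) := by
      rw [← image_comp]; rfl
    rw [h1, φZ]
    have htopcl : top (hF b) ∈ B' ∩ closure ({e' : Fan (F b) | IsEndpoint e'} \ B') := by
      rw [← φZ, ← φ0]
      exact ⟨0, h0, rfl⟩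
    ext x
    constructor
    · rintro ⟨y, ⟨hy1, hy2⟩, rfl⟩
      refine ⟨⟨y, hy1, rfl⟩, ?_⟩
      have h2 := image_closure_subset_closure_image (io_cont (F := F) b) ⟨y, hy2, rfl⟩
      refine closure_mono ?_ h2
      rintro _ ⟨z, ⟨hz1, hz2⟩, rfl⟩
      refine ⟨(io_endpoint hF z).2 hz1, ?_⟩
      rintro ⟨w, hw, hwz⟩
      exact hz2 ((io_inj b hwz) ▸ hw)
    · rintro ⟨⟨y, hy, rfl⟩, hx⟩
      have hsub : ({e' : Fan (WK F) | IsEndpoint e'} \ (io F b '' B')) ⊆
          io F b '' closure ({e' : Fan (F b) | IsEndpoint e'} \ B') ∪ range (io F (!b)) := by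
        rintro z ⟨hz1, hz2⟩
        obtain ⟨b', w, rfl⟩ := io_surj z
        by_cases hb : b' = b
        · subst hb
          left
          exact ⟨w, subset_closure ⟨(io_endpoint hF w).1 hz1, fun hw => hz2 ⟨w, hw, rfl⟩⟩, rfl⟩
        · right
          have : b' = !b := by
            cases b <;> cases b' <;> simp_all
          subst this
          exact ⟨w, rfl⟩
      have hcl : IsClosed (io F b '' closure ({e' : Fan (F b) | IsEndpoint e'} \ B') ∪
          range (io F (!b))) :=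
        ((io_emb hF b).isClosedMap _ isClosed_closure).union (io_emb hF (!b)).isClosed_range
      rcases closure_minimal hsub hcl hx with ⟨w, hw, hwy⟩ | ⟨w, hwy⟩
      · have := io_inj b hwy
        subst this
        exact ⟨w, ⟨hy, hw⟩, rfl⟩
      · have hyt : y = top (hF b) := io_ne hF (by cases b <;> simp) hwy.symm
        subst hyt
        exact ⟨_, htopcl, rfl⟩

/-- derived points of the image -/
lemma Dv_push {b : Bool} {A' : Set (Fan (F b))} {A : Set (Fan (WK F))}
    (hA : ∀ z ∈ A', io F b z ∈ A) {y : Fan (F b)} (hy : y ∈ Dv A') : io F b y ∈ Dv A := by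
  intro U hU
  obtain ⟨z, hz, hzA, hzy⟩ := hy (io F b ⁻¹' U) ((io_cont b).continuousAt.preimage_mem_nhds hU)
  exact ⟨io F b z, hz, hA z hzA, fun h => hzy (io_inj b h)⟩

lemma Dv_pull (hF : ∀ b, Good (F b)) {b : Bool} {A' : Set (Fan (F b))} {A : Set (Fan (WK F))}
    (hA : ∀ z, z ≠ top (hF b) → io F b z ∈ A → z ∈ A') {y : Fan (F b)} (hyt : y ≠ top (hF b))
    (hy : io F b y ∈ Dv A) : y ∈ Dv A' := by
  intro U hU
  rw [(io_emb hF b).isInducing.nhds_eq_comap, mem_comap] at hU
  obtain ⟨V, hV, hVU⟩ := hU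
  have h1 : (range (io F (!b)))ᶜ ∈ 𝓝 (io F b y) := by
    apply (io_emb hF (!b)).isClosed_range.isOpen_compl.mem_nhds
    rintro ⟨w, hw⟩
    exact hyt (io_ne hF (by cases b <;> simp) hw.symm)
  obtain ⟨z, ⟨hzV, hzr⟩, hzA, hzy⟩ := hy _ (inter_mem hV h1)
  obtain ⟨b', w, rfl⟩ := io_surj z
  by_cases hb : b' = b
  · subst hb
    refine ⟨w, hVU hzV, hA w ?_ hzA, fun h => hzy (by rw [h])⟩
    rintro rfl
    apply hzr
    exact ⟨top (hF _), by rw [io_top, io_top]⟩
  · exfalso
    have : b' = !b := by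
      cases b <;> cases b' <;> simp_all
    subst this
    exact hzr ⟨w, rfl⟩

lemma ramification_image {X Y : Type*} [TopologicalSpace X] [TopologicalSpace Y] (h : X ≃ₜ Y)
    {p : X} (hp : IsRamification p) : IsRamification (h p) := by
  obtain ⟨A₁, A₂, A₃, x₁, x₂, x₃, h₁, h₂, h₃, h12, h13, h23⟩ := hp
  refine ⟨h '' A₁, h '' A₂, h '' A₃, h x₁, h x₂, h x₃, isArc_image h h₁, isArc_image h h₂,
    isArc_image h h₃, ?_, ?_, ?_⟩
  · rw [← image_inter h.injective, h12, image_singleton]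
  · rw [← image_inter h.injective, h13, image_singleton]
  · rw [← image_inter h.injective, h23, image_singleton]

end Pool.Agent.X258.FAN
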